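import Pool.Agent.N652.OM.Stm2
import Pool.Agent.W138.RC.MU

/-!
# Project OM, leaf DIAG: trivial relative commutants give weak irreducibility
-/

set_option autoImplicit false

namespace Pool.Agent.N681.OM

open Pool.Agent.Helper278 Pool.Agent.Helper436.SM Pool.Agent.Helper436.SN
open Pool.Agent.W661.RC Pool.Agent.N303.KQ Pool.Agent.N652.OM
open Matrix Filter Topology
open scoped ComplexOrder

noncomputable section

lemma opBound_of_le {n : ℕ} {x : Mat n} (h : Le (xᴴ * x) 1) : OpBound x 1 := by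
  open scoped Matrix.Norms.L2Operator in
  exact opBound_of_norm ((Pool.Agent.W138.RC.norm_le_one_iff x).2 h)

lemma opBound_unitary {n : ℕ} (u : unitaryGroup (Fin n) ℂ) : OpBound u.1 1 := by
  refine opBound_of_le ?_
  have h : u.1ᴴ * u.1 = 1 := (Matrix.mem_unitaryGroup_iff'.1 u.2)
  unfold Pool.Agent.W661.RC.Le
  rw [h, sub_self]
  exact Matrix.PosSemidef.zero

lemma opBound_smul_one (n : ℕ) (c : ℂ) : OpBound (c • (1 : Mat n)) ‖c‖ := by
  intro v
  rw [Finset.mul_sum]
  refine Finset.sum_le_sum fun i _ => ?_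
  rw [Matrix.smul_mulVec, Matrix.one_mulVec, Pi.smul_apply, norm_smul, mul_pow]

lemma ntr_hs {n : ℕ} (x : Mat n) : ntr n (star x * x) = ((hs x / n : ℝ) : ℂ) := by
  have h : Matrix.trace (star x * x) = ((hs x : ℝ) : ℂ) := by
    unfold hs Matrix.trace
    simp only [Matrix.diag_apply, Matrix.mul_apply, Matrix.star_apply]
    rw [Finset.sum_comm]
    push_cast
    refine Finset.sum_congr rfl fun i _ => Finset.sum_congr rfl fun j _ => ?_
    rw [← Complex.conj_mul']
    rfl
  unfold ntr
  rw [h]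
  push_cast
  rw [div_eq_inv_mul]

/-- DIAG -/
theorem main : S_DIAG := by
  intro U hU Q _ _ _ _ π φ hM k V hirr κ hκ
  by_contra hcon
  -- the bad sets
  have hbad : ∀ δ : ℝ, 0 < δ → ∀ᶠ n in U, ¬ IrrB (fun s => (V n s).1) δ κ := by
    intro δ hδ
    rw [Ultrafilter.eventually_not]
    intro h
    exact hcon ⟨δ, hδ, h⟩
  have hmono : ∀ (n : ℕ) (δ δ' : ℝ), δ' ≤ δ → IrrB (fun s => (V n s).1) δ κ →
      IrrB (fun s => (V n s).1) δ' κ := by
    intro n δ δ' h h1 x hx hx2
    exact h1 x hx (hx2.trans (mul_le_mul_of_nonneg_right h (Nat.cast_nonneg n)))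
  classical
  obtain ⟨P, hP⟩ : ∃ P : ℕ → ℕ → Prop, P = fun (n m : ℕ) =>
    ¬ IrrB (fun s => (V n s).1) (1 / ((m : ℝ) + 1)) κ := ⟨_, rfl⟩
  obtain ⟨g, hg⟩ : ∃ g : ℕ → ℕ, g = fun n => Nat.findGreatest (P n) n := ⟨_, rfl⟩
  have hPU : ∀ m, ∀ᶠ n in U, P n m := by
    intro m
    rw [hP]
    exact hbad _ (by positivity)
  have hcof : ∀ M : ℕ, ∀ᶠ n in (U : Filter ℕ), M ≤ n := by
    intro M
    induction M with
    | zero => exact Eventually.of_forall fun n => Nat.zero_le n
    | succ M ih =>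
      have h1 : ∀ᶠ n in (U : Filter ℕ), n ≠ M := by
        have := Ultrafilter.compl_mem_iff_notMem.2 (hU M)
        filter_upwards [this] with n hn
        simpa using hn
      filter_upwards [ih, h1] with n h2 h3
      omega
  have hgU : ∀ M : ℕ, ∀ᶠ n in (U : Filter ℕ), M ≤ g n := by
    intro M
    filter_upwards [hPU M, hcof M] with n h1 h2
    rw [hg]
    exact Nat.le_findGreatest h2 h1
  have hgP : ∀ n, P n 0 → P n (g n) := by
    intro n h0
    rw [hg]
    exact Nat.findGreatest_spec (Nat.zero_le n) h0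
  -- the sequence
  have hx : ∀ n, ∃ x : Mat n, Le (xᴴ * x) 1 ∧
      (P n 0 → en (fun s => (V n s).1) x ≤ 1 / ((g n : ℝ) + 1) * n ∧
        ∀ m : ℂ, κ * n < hs (x - m • (1 : Mat n))) ∧ (¬ P n 0 → x = 0) := by
    intro n
    by_cases h0 : P n 0
    · have h1 := hgP n h0
      rw [hP] at h1
      unfold IrrB at h1
      push Not at h1
      obtain ⟨x, x1, x2, x3⟩ := h1
      exact ⟨x, x1, fun _ => ⟨x2, x3⟩, fun h => absurd h0 h⟩
    · refine ⟨0, ?_, fun h => absurd h h0, fun _ => rfl⟩
      unfold Pool.Agent.W661.RC.Le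
      rw [mul_zero, sub_zero]
      exact Matrix.PosSemidef.one
  choose X hX1 hX2 hX3 using hx
  have nbX : NormBounded X := ⟨1, fun n => opBound_of_le (hX1 n)⟩
  have nbV : ∀ s, NormBounded (fun n => (V n s).1) := fun s => ⟨1, fun n => opBound_unitary _⟩
  have nb1 : ∀ c : ℂ, NormBounded (fun n => c • (1 : Mat n)) := fun c =>
    ⟨‖c‖, fun n => opBound_smul_one n c⟩
  have nbsm : ∀ (c : ℂ) (a : ∀ n, Mat n), NormBounded a → NormBounded (fun n => c • a n) := by
    rintro c a ⟨C, hC⟩
    refine ⟨‖c‖ * C, fun n => ?_⟩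
    have h1 := (opBound_smul_one n c).mul (hC n)
    rwa [smul_mul_assoc, one_mul] at h1
  have hsub : ∀ a b : ∀ n, Mat n, NormBounded a → NormBounded b →
      NormBounded (fun n => a n - b n) ∧ π (fun n => a n - b n) = π a - π b := by
    intro a b ha hb
    have e : (fun n => a n - b n) = fun n => a n + (-1 : ℂ) • b n := by
      funext n
      rw [neg_one_smul, sub_eq_add_neg]
    have hb' := nbsm (-1) b hb
    constructor
    · rw [e]
      obtain ⟨C, hC⟩ := ha
      obtain ⟨D, hD⟩ := hb'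
      exact ⟨2 * (|C| + |D|), fun n => (hC n).add (hD n)⟩
    · rw [e, hM.add a _ ha hb', hM.smul _ b hb, neg_one_smul, sub_eq_add_neg]
  have nbmul : ∀ a b : ∀ n, Mat n, NormBounded a → NormBounded b →
      NormBounded (fun n => a n * b n) := by
    rintro a b ⟨C, hC⟩ ⟨D, hD⟩
    exact ⟨C * D, fun n => (hC n).mul (hD n)⟩
  have hker : ∀ a : ∀ n, Mat n, NormBounded a →
      (π a = 0 ↔ Tendsto (fun n => hs (a n) / n) U (𝓝 0)) := by
    intro a ha
    rw [hM.ker a ha]
    have e : (fun n => ntr n (star (a n) * a n)) = fun n => ((hs (a n) / n : ℝ) : ℂ) := by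
      funext n
      exact ntr_hs _
    rw [e]
    constructor
    · intro h
      have := (Complex.continuous_re.tendsto 0).comp h
      rw [Complex.zero_re] at this
      exact this
    · intro h
      have := (Complex.continuous_ofReal.tendsto 0).comp h
      rw [Complex.ofReal_zero] at this
      exact this
  have hs0 : ∀ {n : ℕ} (x : Mat n), 0 ≤ hs x := fun x =>
    Finset.sum_nonneg fun i _ => Finset.sum_nonneg fun j _ => by positivity
  -- the class commutes
  obtain ⟨c, hc⟩ := hirr (π X) (by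
    intro s
    rw [← hM.mul _ _ nbX (nbV s), ← hM.mul _ _ (nbV s) nbX, ← sub_eq_zero, ← neg_eq_zero,
      neg_sub]
    obtain ⟨h1, h2⟩ := hsub (fun n => (V n s).1 * X n) (fun n => X n * (V n s).1)
      (nbmul _ _ (nbV s) nbX) (nbmul _ _ nbX (nbV s))
    rw [← h2, hker _ h1]
    have hle : ∀ n, hs ((V n s).1 * X n - X n * (V n s).1) / n ≤ 1 / ((g n : ℝ) + 1) := by
      intro n
      have hg0 : 0 ≤ 1 / ((g n : ℝ) + 1) := by positivity
      by_cases h0 : P n 0
      · have h3 := (hX2 n h0).1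
        have h4 : hs ((V n s).1 * X n - X n * (V n s).1) ≤ en (fun s => (V n s).1) (X n) := by
          unfold en
          exact Finset.single_le_sum (f := fun s => hs ((V n s).1 * X n - X n * (V n s).1))
            (fun i _ => hs0 _) (Finset.mem_univ s)
        rcases Nat.eq_zero_or_pos n with hn | hn
        · have : (n : ℝ) = 0 := by exact_mod_cast hn
          rw [this, div_zero]
          exact hg0
        · rw [div_le_iff₀ (by exact_mod_cast hn)]
          exact h4.trans h3
      · rw [hX3 n h0, mul_zero, zero_mul, sub_zero]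
        have : hs (0 : Mat n) = 0 := by simp [hs]
        rw [this, zero_div]
        exact hg0
    have h1g : Tendsto (fun n => 1 / ((g n : ℝ) + 1)) U (𝓝 0) := by
      have h5 : Tendsto g U atTop := tendsto_atTop.2 hgU
      exact (tendsto_one_div_add_atTop_nhds_zero_nat (𝕜 := ℝ)).comp h5
    exact squeeze_zero (fun n => div_nonneg (hs0 _) (Nat.cast_nonneg n)) hle h1g)
  -- contradiction
  obtain ⟨h1, h2⟩ := hsub X (fun n => c • (1 : Mat n)) nbX (nb1 c)
  have h3 : π (fun n => c • (1 : Mat n)) = algebraMap ℂ Q c := by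
    rw [hM.smul c (fun _ => 1) (by simpa using nb1 1), hM.one, Algebra.algebraMap_eq_smul_one]
  rw [h3, hc, sub_self, hker _ h1] at h2
  have h4 : ∀ᶠ n in (U : Filter ℕ), hs (X n - c • (1 : Mat n)) / n < κ :=
    h2.eventually (gt_mem_nhds hκ)
  obtain ⟨n, h5, h6, h7⟩ := ((h4.and ((hPU 0).and (hcof 1))).exists)
  have hn : (0 : ℝ) < n := by exact_mod_cast h7
  have h8 := (hX2 n h6).2 c
  rw [div_lt_iff₀ hn] at h5
  linarith

end

end Pool.Agent.N681.OM
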